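import Pool.Agent.Q229.CD.Mem
import Pool.Agent.NPC.Classes

/-!
# Recognising comparability digraphs is NP-complete

A linear order is a comparability ordering if and only if, for all arcs `ab`, `bc` such that `a ≠ c`
and `ac` is not an arc, `b` is not between `a` and `c`.

The reduction is from monotone not-all-equal satisfiability.  A variable is a vertex (hub) with one
in-neighbour; its out-neighbours, the connectors, are on the same side of it as the in-neighbour.
The gadget of a clause consists of a transitive triangle `a → b → c`, `a → c`, of `d` with
`b → d`, `c → d`, and of three connectors `n → a, c, d`, `g → b, d`, `e → c`.  The forced relations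
make the positions of the hubs relative to their in-neighbours equal to the orientations of `ba`,
`cb`, `ac`, so that not all of them are equal.
-/

set_option autoImplicit false

namespace Pool.Agent.Results.MP_8b4e11_lc.RecognitionNPComplete

open Pool.Agent.NPC Pool.Agent.H622R2 Q229.CD

/-- **Recognising comparability digraphs is NP-complete**, even for digraphs without directed
cycles: the problem is in `NP`, and every language in `NP` has a polynomial-time many-one reduction
to it all of whose values are (adjacency matrices of) digraphs without directed cycles.  There is a
polynomial-time algorithm for the problem if and only if `P = NP`. -/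
theorem result :
    InNPP CompDigraph ∧ NPHardP CompDigraph ∧
    (∀ L : Set (List Bool), InNP L → ∃ f : List Bool → List (List Bool),
      PolyTime (fun x => bits (f x)) ∧ (∀ x i, ¬ Relation.TransGen (arc (f x)) i i) ∧
      ∀ x, x ∈ L ↔ CompDigraph (f x)) ∧
    (InPP CompDigraph ↔ ∀ L : Set (List Bool), InNP L → InP L) := by
  refine ⟨inNPP, hard.toHardI.toNPHardP, fun L hL => ?_,
    ⟨fun h => NPHard.collapse hard.toHardI.toNPHardP h, fun h => h _ inNPP⟩⟩
  obtain ⟨f, hf, hpr, h⟩ := hard L hL
  exact ⟨f, PC.toPolyTime hf, hpr, h⟩

end Pool.Agent.Results.MP_8b4e11_lc.RecognitionNPComplete
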